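import Mathlib
import Pool.Agent.H384.CC.Thin

/-!
# Codes in random sets of words

Let `0 < δ < 1/2`, and let `S` be a random set of words of length `n` which contains each of the
`2 ^ n` words with probability `2 ^ (-(1 - ρ) n)`, independently, so that `S` has about `2 ^ (ρ n)`
words.  How large is the largest code with minimum distance `⌈δ n⌉` all of whose words are in `S`?
For `ρ = 1` this is the problem of the asymptotic rate `R(δ)` of the best codes.  The greedy
argument gives (with high probability) a code of rate `min ρ (1 - H δ)`; we say that the bound of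
Gilbert and Varshamov is tight for random sets of exponent `ρ` if this is the true value.

With `g = 1 - H δ` (Gilbert and Varshamov) and `m = H (1/2 - √(δ(1-δ)))` (the first bound of
McEliece, Rodemich, Rumsey and Welch) we prove that it is tight for all `ρ` up to the midpoint of
`g` and `m`, we give an upper bound for all `ρ`, and we show that `R(δ) ≤ g + (1 - ρ)` if it is tight
for the exponent `ρ`, so that `R(δ) = g` if and only if it is tight for all `ρ < 1`.

Proof.  The eigenvalues `K_d(i)` of the graph of the pairs of words at distance `d` (`d` even) are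
positive for `i / n` below `κ = 1/2 - √(δ(1-δ))` and at most `√(2^n C(n,d) / C(n,i))` in absolute
value.  So a set of more than `2 ^ ((1 - (m - g)/2 + ε) n)` words contains a word with at least the
expected number of neighbours.  By the method of containers (Kleitman and Winston) all codes are
contained in few, `exp (2 ^ ((g + ε) n))`, sets of at most `2 ^ ((1 - (m - g)/2 + ε) n)` words.
-/

set_option autoImplicit false

open Filter Finset Topology

namespace Pool.Agent.Results.MP_0430e4_lc.CodesInRandomSets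

/-- any two distinct words of `C` differ in at least `d` coordinates -/
def IsCode {n : ℕ} (d : ℕ) (C : Finset (Fin n → Bool)) : Prop :=
  ∀ x ∈ C, ∀ y ∈ C, x ≠ y → d ≤ hammingDist x y

/-- the largest size of a code with minimum distance at least `d` all of whose words are in `S` -/
noncomputable def A {n : ℕ} (d : ℕ) (S : Finset (Fin n → Bool)) : ℕ :=
  sSup {k | ∃ C ⊆ S, IsCode d C ∧ C.card = k}

/-- the rate of the largest code with minimum distance at least `⌈δ n⌉` in `S` -/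
noncomputable def rate {n : ℕ} (δ : ℝ) (S : Finset (Fin n → Bool)) : ℝ :=
  Real.logb 2 (A ⌈δ * n⌉₊ S) / n

/-- The asymptotic rate `R(δ) = limsup (1/n) log₂ A(n, ⌈δ n⌉)`. -/
noncomputable def R (δ : ℝ) : ℝ :=
  limsup (fun n : ℕ => rate δ (univ : Finset (Fin n → Bool))) atTop

/-- The binary entropy function `H₂(x) = - x log₂ x - (1 - x) log₂ (1 - x)`. -/
noncomputable def H (x : ℝ) : ℝ := -x * Real.logb 2 x - (1 - x) * Real.logb 2 (1 - x)

/-- the bound of Gilbert and Varshamov -/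
noncomputable def gv (δ : ℝ) : ℝ := 1 - H δ

/-- the first bound of McEliece, Rodemich, Rumsey and Welch -/
noncomputable def mrrw (δ : ℝ) : ℝ := H (1 / 2 - √(δ * (1 - δ)))

open Classical in
/-- The probability of the event `E` for the random set `S` of words of length `n` which contains
each of the `2 ^ n` words with probability `2 ^ (-(1 - ρ) n)`, independently. -/
noncomputable def P (n : ℕ) (ρ : ℝ) (E : Finset (Fin n → Bool) → Prop) : ℝ :=
  ∑ S : Finset (Fin n → Bool), if E S then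
    ((2 : ℝ) ^ (-(1 - ρ) * n)) ^ S.card * (1 - (2 : ℝ) ^ (-(1 - ρ) * n)) ^ (2 ^ n - S.card) else 0

/-- The bound of Gilbert and Varshamov is tight for random sets of exponent `ρ`: the rate of the
largest code in the random set converges to `min ρ (1 - H δ)` in probability. -/
def Tight (δ ρ : ℝ) : Prop :=
  ∀ ε > 0, Tendsto (fun n : ℕ => P n ρ (fun S => |rate δ S - min ρ (gv δ)| ≤ ε)) atTop (𝓝 1)

/-! ### Translation -/

lemma log2_pos : 0 < Real.log 2 := Real.log_pos (by norm_num)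

lemma H_eq (x : ℝ) : H x * Real.log 2 = Real.binEntropy x := by
  have hlog : Real.log 2 ≠ 0 := log2_pos.ne'
  unfold H Real.binEntropy Real.logb
  rw [Real.log_inv, Real.log_inv]
  field_simp
  ring

lemma gv_eq (δ : ℝ) : gv δ * Real.log 2 = Real.log 2 - Real.binEntropy δ := by
  unfold gv
  rw [sub_mul, H_eq, one_mul]

lemma mrrw_eq (δ : ℝ) :
    mrrw δ * Real.log 2 = Real.binEntropy (1 / 2 - √(δ * (1 - δ))) := H_eq _

lemma A_eq {n : ℕ} (d : ℕ) (S : Finset (Fin n → Bool)) : A d S = H384.CC.A d S := rfl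

lemma P_eq (n : ℕ) (ρ : ℝ) (E : Finset (Fin n → Bool) → Prop) :
    P n ρ E = H384.CC.Prob (Fin n → Bool) (Real.exp (-((1 - ρ) * Real.log 2 * n))) E := by
  unfold P H384.CC.Prob
  have h1 : (2 : ℝ) ^ (-(1 - ρ) * n) = Real.exp (-((1 - ρ) * Real.log 2 * n)) := by
    rw [Real.rpow_def_of_pos (by norm_num)]
    congr 1
    ring
  have h2 : Fintype.card (Fin n → Bool) = 2 ^ n := by simp
  rw [h1, h2]

lemma p_pos (ρ : ℝ) (n : ℕ) : 0 < Real.exp (-((1 - ρ) * Real.log 2 * n)) := Real.exp_pos _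

lemma p_le {ρ : ℝ} (h : ρ ≤ 1) (n : ℕ) : Real.exp (-((1 - ρ) * Real.log 2 * n)) ≤ 1 := by
  rw [Real.exp_le_one_iff]
  have h2 : 0 ≤ (1 - ρ) := by linarith
  have h3 := log2_pos
  have : 0 ≤ (1 - ρ) * Real.log 2 * n := by positivity
  linarith

lemma P_mono {n : ℕ} {ρ : ℝ} (h : ρ ≤ 1) {E F : Finset (Fin n → Bool) → Prop}
    (hEF : ∀ S, E S → F S) : P n ρ E ≤ P n ρ F := by
  rw [P_eq, P_eq]
  exact H384.CC.Prob_mono (p_pos ρ n).le (p_le h n) hEF

lemma P_or {n : ℕ} {ρ : ℝ} (h : ρ ≤ 1) (E F : Finset (Fin n → Bool) → Prop) :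
    P n ρ (fun S => E S ∨ F S) ≤ P n ρ E + P n ρ F := by
  rw [P_eq, P_eq, P_eq]
  exact H384.CC.Prob_or (p_pos ρ n).le (p_le h n) E F

lemma P_nonneg {n : ℕ} {ρ : ℝ} (h : ρ ≤ 1) (E : Finset (Fin n → Bool) → Prop) : 0 ≤ P n ρ E := by
  rw [P_eq]
  exact H384.CC.Prob_nonneg (p_pos ρ n).le (p_le h n) E

lemma P_not {n : ℕ} {ρ : ℝ} (E : Finset (Fin n → Bool) → Prop) :
    P n ρ (fun S => ¬ E S) = 1 - P n ρ E := by
  rw [P_eq, P_eq]
  exact H384.CC.Prob_not E

lemma P_le_one {n : ℕ} {ρ : ℝ} (h : ρ ≤ 1) (E : Finset (Fin n → Bool) → Prop) : P n ρ E ≤ 1 := by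
  have := P_nonneg h (n := n) (fun S => ¬ E S)
  rw [P_not] at this
  linarith

/-- convergence to `1` from a bound for the complement -/
lemma tendsto_one {ρ : ℝ} (h : ρ ≤ 1) {E : (n : ℕ) → Finset (Fin n → Bool) → Prop} {e : ℕ → ℝ}
    (he : Tendsto e atTop (𝓝 0)) (hE : ∀ᶠ n in atTop, P n ρ (fun S => ¬ E n S) ≤ e n) :
    Tendsto (fun n => P n ρ (E n)) atTop (𝓝 1) := by
  have h1 : Tendsto (fun n => 1 - e n) atTop (𝓝 1) := by
    have := he.const_sub 1
    rwa [sub_zero] at this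
  refine tendsto_of_tendsto_of_tendsto_of_le_of_le' h1 tendsto_const_nhds ?_ ?_
  · filter_upwards [hE] with n hn
    rw [P_not] at hn
    linarith
  · filter_upwards with n using P_le_one h _

/-- a bound for the complement from convergence to `1` -/
lemma tendsto_zero {ρ : ℝ} {E : (n : ℕ) → Finset (Fin n → Bool) → Prop}
    (hE : Tendsto (fun n => P n ρ (E n)) atTop (𝓝 1)) :
    Tendsto (fun n => P n ρ (fun S => ¬ E n S)) atTop (𝓝 0) := by
  have := hE.const_sub 1
  rw [sub_self] at this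
  refine this.congr fun n => ?_
  rw [P_not]

lemma rate_nonneg {n : ℕ} (δ : ℝ) (S : Finset (Fin n → Bool)) : 0 ≤ rate δ S := by
  unfold rate
  apply div_nonneg _ (Nat.cast_nonneg _)
  rcases Nat.eq_zero_or_pos (A ⌈δ * n⌉₊ S) with h | h
  · rw [h]
    simp
  · apply Real.logb_nonneg (by norm_num)
    exact_mod_cast h

lemma rate_le {n : ℕ} (hn : 1 ≤ n) {δ x : ℝ} (hx : 0 ≤ x) {S : Finset (Fin n → Bool)}
    (h : (A ⌈δ * n⌉₊ S : ℝ) ≤ Real.exp (x * Real.log 2 * n)) : rate δ S ≤ x := by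
  unfold rate
  have hn0 : (0 : ℝ) < n := by exact_mod_cast hn
  rw [div_le_iff₀ hn0]
  rcases Nat.eq_zero_or_pos (A ⌈δ * n⌉₊ S) with h1 | h1
  · rw [h1]
    simp only [Nat.cast_zero, Real.logb_zero]
    positivity
  · have h2 : (0 : ℝ) < (A ⌈δ * n⌉₊ S : ℝ) := by exact_mod_cast h1
    rw [Real.logb, div_le_iff₀ log2_pos]
    have h3 := Real.log_le_log h2 h
    rw [Real.log_exp] at h3
    linarith

lemma le_rate {n : ℕ} (hn : 1 ≤ n) {δ x : ℝ} {S : Finset (Fin n → Bool)}
    (h : Real.exp (x * Real.log 2 * n) ≤ (A ⌈δ * n⌉₊ S : ℝ)) : x ≤ rate δ S := by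
  unfold rate
  have hn0 : (0 : ℝ) < n := by exact_mod_cast hn
  rw [le_div_iff₀ hn0, Real.logb, le_div_iff₀ log2_pos]
  have h3 := Real.log_le_log (Real.exp_pos _) h
  rw [Real.log_exp] at h3
  linarith

lemma lt_A {n : ℕ} (hn : 1 ≤ n) {δ x : ℝ} (hx : 0 ≤ x) {S : Finset (Fin n → Bool)}
    (h : x < rate δ S) : Real.exp (x * Real.log 2 * n) < (A ⌈δ * n⌉₊ S : ℝ) := by
  by_contra hcon
  push Not at hcon
  exact absurd (rate_le hn hx hcon) (not_le.2 h)

lemma A_lt {n : ℕ} (hn : 1 ≤ n) {δ x : ℝ} {S : Finset (Fin n → Bool)}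
    (h : rate δ S < x) : (A ⌈δ * n⌉₊ S : ℝ) < Real.exp (x * Real.log 2 * n) := by
  by_contra hcon
  push Not at hcon
  exact absurd (le_rate hn hcon) (not_le.2 h)

lemma exp_tendsto {c : ℝ} (hc : 0 < c) :
    Tendsto (fun n : ℕ => Real.exp (-(c * n))) atTop (𝓝 0) := by
  have h1 : Tendsto (fun n : ℕ => c * (n : ℝ)) atTop atTop :=
    tendsto_natCast_atTop_atTop.const_mul_atTop hc
  exact Real.tendsto_exp_atBot.comp (tendsto_neg_atTop_atBot.comp h1)

/-! ### The four estimates -/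

lemma gv_pos {δ : ℝ} (h1 : δ < 1 / 2) : 0 < gv δ := by
  have h2 : gv δ * Real.log 2 = Real.log 2 - Real.binEntropy δ := gv_eq δ
  have h3 : Real.binEntropy δ < Real.log 2 := by
    apply Real.binEntropy_lt_log_two.2
    norm_num
    linarith
  have h4 := log2_pos
  by_contra hcon
  push Not at hcon
  nlinarith

lemma gv_le_one {δ : ℝ} (h0 : 0 < δ) (h1 : δ < 1 / 2) : gv δ ≤ 1 := by
  have h2 : gv δ * Real.log 2 = Real.log 2 - Real.binEntropy δ := gv_eq δ
  have h3 : 0 ≤ Real.binEntropy δ := Real.binEntropy_nonneg h0.le (by linarith)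
  have h4 := log2_pos
  by_contra hcon
  push Not at hcon
  nlinarith

lemma mrrw_le_one (δ : ℝ) : mrrw δ ≤ 1 := by
  have h2 := mrrw_eq δ
  have h3 : Real.binEntropy (1 / 2 - √(δ * (1 - δ))) ≤ Real.log 2 := Real.binEntropy_le_log_two
  have h4 := log2_pos
  by_contra hcon
  push Not at hcon
  nlinarith

lemma gv_lt_mrrw {δ : ℝ} (h0 : 0 < δ) (h1 : δ < 1 / 2) : gv δ < mrrw δ := by
  have h2 := gv_eq δ
  have h3 := mrrw_eq δ
  have h4 := Y570.LS.gain_pos h0 h1
  have h5 := log2_pos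
  by_contra hcon
  push Not at hcon
  nlinarith

/-- the upper bound -/
lemma upper {δ ρ : ℝ} (h0 : 0 < δ) (h1 : δ < 1 / 2) (hρ : ρ ≤ 1) {ε : ℝ} (hε : 0 < ε) :
    Tendsto (fun n : ℕ => P n ρ (fun S =>
      rate δ S ≤ max (gv δ) (ρ - (mrrw δ - gv δ) / 2) + ε)) atTop (𝓝 1) := by
  have hl := log2_pos
  have hx : 0 ≤ max (gv δ) (ρ - (mrrw δ - gv δ) / 2) + ε := by
    have := gv_pos h1
    have h2 := le_max_left (gv δ) (ρ - (mrrw δ - gv δ) / 2)
    linarith
  refine tendsto_one hρ (E := fun n S => rate δ S ≤ max (gv δ) (ρ - (mrrw δ - gv δ) / 2) + ε)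
    (exp_tendsto one_pos) ?_
  filter_upwards [H384.CC.rand_upper h0 h1 (mul_pos hε hl) hρ, eventually_ge_atTop 1] with n hn hn1
  rw [one_mul]
  refine le_trans ?_ hn
  rw [← P_eq]
  refine P_mono hρ fun S hS => ?_
  push Not at hS
  have h2 := lt_A hn1 hx hS
  rw [← A_eq]
  refine le_trans (le_of_eq ?_) h2.le
  congr 2
  rw [add_mul, max_mul_of_nonneg _ _ hl.le, sub_mul, div_mul_eq_mul_div, sub_mul, gv_eq, mrrw_eq]
  congr 3
  ring

/-- the trivial bound -/
lemma size {δ ρ : ℝ} (hρ0 : 0 < ρ) (hρ : ρ ≤ 1) {ε : ℝ} (hε : 0 < ε) :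
    Tendsto (fun n : ℕ => P n ρ (fun S => rate δ S ≤ ρ + ε)) atTop (𝓝 1) := by
  have hl := log2_pos
  refine tendsto_one hρ (E := fun n S => rate δ S ≤ ρ + ε)
    (exp_tendsto (mul_pos hε hl)) ?_
  filter_upwards [eventually_ge_atTop 1] with n hn1
  refine le_trans ?_ (H384.CC.rand_size (δ := δ) (mul_pos hε hl) hρ n)
  rw [← P_eq]
  refine P_mono hρ fun S hS => ?_
  push Not at hS
  have h2 := lt_A hn1 (by positivity) hS
  rw [← A_eq, ← add_mul]
  exact h2.le

/-- the lower bound -/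
lemma lower {δ ρ : ℝ} (h0 : 0 < δ) (h1 : δ < 1 / 2) (hρ0 : 0 < ρ) (hρ : ρ ≤ 1) {ε : ℝ}
    (hε : 0 < ε) :
    Tendsto (fun n : ℕ => P n ρ (fun S => min ρ (gv δ) - ε ≤ rate δ S)) atTop (𝓝 1) := by
  have hl := log2_pos
  refine tendsto_one hρ (E := fun n S => min ρ (gv δ) - ε ≤ rate δ S)
    (e := fun n : ℕ => 4 * Real.exp (-(ρ * Real.log 2 * n)) + 1 / n) ?_ ?_
  · have h2 := (exp_tendsto (mul_pos hρ0 hl)).const_mul 4
    rw [mul_zero] at h2
    have h3 := h2.add tendsto_one_div_atTop_nhds_zero_nat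
    rwa [add_zero] at h3
  · filter_upwards [H384.CC.rand_lower h0 h1 (mul_pos hε hl) hρ0 hρ, eventually_ge_atTop 1]
      with n hn hn1
    refine le_trans ?_ hn
    rw [← P_eq]
    refine P_mono hρ fun S hS => ?_
    push Not at hS
    have h2 := A_lt hn1 hS
    rw [← A_eq]
    refine lt_of_lt_of_le h2 (le_of_eq ?_)
    congr 2
    rw [sub_mul, min_mul_of_nonneg _ _ hl.le, gv_eq, min_comm]

/-- the upper bound `1 - H δ` is all that is needed -/
lemma tight_iff {δ ρ : ℝ} (h0 : 0 < δ) (h1 : δ < 1 / 2) (hρ0 : 0 < ρ) (hρ : ρ ≤ 1) :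
    Tight δ ρ ↔ ∀ ε > 0, Tendsto (fun n : ℕ => P n ρ (fun S => rate δ S ≤ gv δ + ε)) atTop (𝓝 1) := by
  constructor
  · intro h ε hε
    refine tendsto_one hρ (E := fun n S => rate δ S ≤ gv δ + ε) (tendsto_zero (h ε hε)) ?_
    filter_upwards with n
    refine P_mono hρ fun S hS hS' => hS ?_
    have h2 := (abs_le.1 hS').2
    have h3 := min_le_right ρ (gv δ)
    linarith
  · intro h ε hε
    have h2 := (tendsto_zero (h ε hε)).add ((tendsto_zero (size (δ := δ) hρ0 hρ hε)).add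
      (tendsto_zero (lower h0 h1 hρ0 hρ hε)))
    rw [add_zero, add_zero] at h2
    refine tendsto_one hρ (E := fun n S => |rate δ S - min ρ (gv δ)| ≤ ε) h2 ?_
    filter_upwards with n
    refine le_trans ?_ (add_le_add le_rfl (P_or hρ _ _))
    refine le_trans ?_ (P_or hρ _ _)
    refine P_mono hρ fun S hS => ?_
    by_contra hcon
    push Not at hcon
    apply hS
    rw [abs_le]
    refine ⟨by linarith [hcon.2.2], ?_⟩
    rcases min_cases ρ (gv δ) with h4 | h4
    · rw [h4.1]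
      linarith [hcon.2.1]
    · rw [h4.1]
      linarith [hcon.1]

/-! ### The asymptotic rate -/

lemma rate_univ_le {n : ℕ} (hn : 1 ≤ n) (δ : ℝ) (S : Finset (Fin n → Bool)) : rate δ S ≤ 1 := by
  apply rate_le hn zero_le_one
  rw [one_mul, mul_comm (Real.log 2), Real.exp_nat_mul, Real.exp_log (by norm_num)]
  obtain ⟨C, -, -, hC⟩ := H384.CC.exists_A ⌈δ * n⌉₊ S
  rw [A_eq, ← hC]
  have : C.card ≤ 2 ^ n := by
    refine (Finset.card_le_univ C).trans ?_
    simp
  exact_mod_cast this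

lemma rate_mono {n : ℕ} (δ : ℝ) {S T : Finset (Fin n → Bool)} (h : S ⊆ T) :
    rate δ S ≤ rate δ T := by
  unfold rate
  apply div_le_div_of_nonneg_right _ (Nat.cast_nonneg _)
  obtain ⟨C, hCS, hC, hCA⟩ := H384.CC.exists_A ⌈δ * n⌉₊ S
  have h2 : A ⌈δ * n⌉₊ S ≤ A ⌈δ * n⌉₊ T := by
    rw [A_eq, A_eq, ← hCA]
    exact H384.CC.le_A (hCS.trans h) hC
  rcases Nat.eq_zero_or_pos (A ⌈δ * n⌉₊ S) with h3 | h3
  · rw [h3]
    simp only [Nat.cast_zero, Real.logb_zero]
    rcases Nat.eq_zero_or_pos (A ⌈δ * n⌉₊ T) with h4 | h4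
    · rw [h4]
      simp
    · apply Real.logb_nonneg (by norm_num)
      exact_mod_cast h4
  · apply Real.logb_le_logb_of_le (by norm_num)
    · exact_mod_cast h3
    · exact_mod_cast h2

lemma bdd (δ : ℝ) : IsBoundedUnder (· ≤ ·) atTop
    (fun n : ℕ => rate δ (univ : Finset (Fin n → Bool))) := by
  refine ⟨1, ?_⟩
  rw [eventually_map]
  filter_upwards [eventually_ge_atTop 1] with n hn using rate_univ_le hn δ _

lemma cobdd (δ : ℝ) : IsCoboundedUnder (· ≤ ·) atTop
    (fun n : ℕ => rate δ (univ : Finset (Fin n → Bool))) := by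
  refine IsBoundedUnder.isCoboundedUnder_le ⟨0, ?_⟩
  rw [eventually_map]
  filter_upwards with n using rate_nonneg δ _

lemma gv_le_R {δ : ℝ} (h0 : 0 < δ) (h1 : δ < 1 / 2) : gv δ ≤ R δ := by
  refine le_of_forall_pos_le_add fun ε hε => ?_
  have h2 := lower h0 h1 one_pos le_rfl hε
  rw [min_eq_right (gv_le_one h0 h1)] at h2
  have h3 : ∀ᶠ n : ℕ in atTop, gv δ - ε ≤ rate δ (univ : Finset (Fin n → Bool)) := by
    filter_upwards [h2.eventually (lt_mem_nhds zero_lt_one)] with n hn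
    by_contra hcon
    push Not at hcon
    have h4 : P n 1 (fun S => gv δ - ε ≤ rate δ S) ≤ P n 1 (fun _ => False) :=
      P_mono le_rfl fun S hS => by
        have := rate_mono δ (Finset.subset_univ S)
        linarith
    have h5 : P n 1 (fun _ => False) = 0 := by
      unfold P
      simp
    linarith
  have h4 : gv δ - ε ≤ R δ := le_limsup_of_frequently_le h3.frequently (bdd δ)
  linarith

/-- thinning the best codes -/
lemma thin {δ ρ : ℝ} (h0 : 0 < δ) (h1 : δ < 1 / 2) (hρ0 : 0 < ρ) (hρ : ρ ≤ 1)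
    (h : Tight δ ρ) : R δ ≤ gv δ + (1 - ρ) := by
  rw [tight_iff h0 h1 hρ0 hρ] at h
  by_contra hcon
  push Not at hcon
  have hl := log2_pos
  have hg := gv_pos h1
  obtain ⟨ε, hε⟩ : ∃ ε : ℝ, ε = (R δ - (gv δ + (1 - ρ))) / 4 := ⟨_, rfl⟩
  have hε0 : 0 < ε := by
    rw [hε]
    linarith
  have h2 : ∃ᶠ n : ℕ in atTop, gv δ + (1 - ρ) + 3 * ε < rate δ (univ : Finset (Fin n → Bool)) := by
    apply frequently_lt_of_lt_limsup (cobdd δ)
    change _ < R δ
    linarith
  have h3 := (tendsto_zero (h ε hε0)).eventually (gt_mem_nhds (show (0 : ℝ) < 1 / 2 by norm_num))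
  have h4 := (exp_tendsto (c := ε * Real.log 2) (by positivity)).eventually
    (gt_mem_nhds (show (0 : ℝ) < 1 / 8 by norm_num))
  obtain ⟨n, hn, hn2, hn3, hn1⟩ := (h2.and_eventually (h3.and (h4.and (eventually_ge_atTop 1)))).exists
  have h5 := lt_A hn1 (by linarith) hn
  have hA0 : (0 : ℝ) < A ⌈δ * n⌉₊ (univ : Finset (Fin n → Bool)) := lt_trans (Real.exp_pos _) h5
  have hA : 0 < A ⌈δ * n⌉₊ (univ : Finset (Fin n → Bool)) := by exact_mod_cast hA0
  have h6 := H384.CC.thin ⌈δ * n⌉₊ (p_pos ρ n) (p_le hρ n) (hA)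
  obtain ⟨a, ha⟩ : ∃ a : ℝ, a = Real.exp (-((1 - ρ) * Real.log 2 * n)) *
      A ⌈δ * n⌉₊ (univ : Finset (Fin n → Bool)) := ⟨_, rfl⟩
  rw [← A_eq, ← ha, ← P_eq] at h6
  have h6' : P n ρ (fun S => (A ⌈δ * n⌉₊ S : ℝ) < a / 2) ≤ 4 / a := h6
  have h7 : Real.exp ((gv δ + 3 * ε) * Real.log 2 * n) < a := by
    rw [ha]
    calc Real.exp ((gv δ + 3 * ε) * Real.log 2 * n) = Real.exp (-((1 - ρ) * Real.log 2 * n)) *
          Real.exp ((gv δ + (1 - ρ) + 3 * ε) * Real.log 2 * n) := by
          rw [← Real.exp_add]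
          congr 1
          ring
      _ < _ := mul_lt_mul_of_pos_left h5 (Real.exp_pos _)
  have ha0 : 0 < a := lt_trans (Real.exp_pos _) h7
  have h8 : 8 < Real.exp (ε * Real.log 2 * n) := by
    rw [Real.exp_neg] at hn3
    rw [inv_lt_comm₀ (Real.exp_pos _) (by norm_num)] at hn3
    norm_num at hn3
    exact hn3
  have hn0 : (0 : ℝ) ≤ n := Nat.cast_nonneg _
  have h9 : 8 < a := by
    refine lt_trans h8 (lt_of_le_of_lt ?_ h7)
    apply Real.exp_le_exp.2
    apply mul_le_mul_of_nonneg_right _ hn0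
    apply mul_le_mul_of_nonneg_right _ hl.le
    linarith
  have h10 : 4 / a < 1 / 2 := by
    rw [div_lt_div_iff₀ ha0 (by norm_num)]
    linarith
  -- one of the two events happens
  have h11 : P n ρ (fun _ => True) ≤ P n ρ (fun S => ¬ rate δ S ≤ gv δ + ε) +
      P n ρ (fun S => (A ⌈δ * n⌉₊ S : ℝ) < a / 2) := by
    refine le_trans ?_ (P_or hρ _ _)
    refine P_mono hρ fun S _ => ?_
    by_contra hcon2
    push Not at hcon2
    obtain ⟨c1, c2⟩ := hcon2
    have c3 : gv δ + 2 * ε ≤ rate δ S := by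
      apply le_rate hn1
      refine le_trans ?_ c2
      have c4 : Real.exp ((gv δ + 2 * ε) * Real.log 2 * n) * 8 ≤
          Real.exp ((gv δ + 3 * ε) * Real.log 2 * n) := by
        calc Real.exp ((gv δ + 2 * ε) * Real.log 2 * n) * 8 ≤
              Real.exp ((gv δ + 2 * ε) * Real.log 2 * n) * Real.exp (ε * Real.log 2 * n) :=
              mul_le_mul_of_nonneg_left h8.le (Real.exp_pos _).le
          _ = _ := by
              rw [← Real.exp_add]
              congr 1
              ring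
      have c5 := Real.exp_pos ((gv δ + 2 * ε) * Real.log 2 * n)
      linarith
    linarith
  have h12 : P n ρ (fun _ => True) = 1 := by
    have := P_not (n := n) (ρ := ρ) (fun _ => False)
    have h13 : P n ρ (fun _ => False) = 0 := by
      unfold P
      simp
    rw [h13] at this
    simpa using this
  linarith

/-- **Theorem.** Let `0 < δ < 1/2`, let `g = 1 - H δ` be the bound of Gilbert and Varshamov and `m`
the first bound of McEliece, Rodemich, Rumsey and Welch; then `g < m`.  Let `S` be a random set of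
words of length `n` that contains every word with probability `2 ^ (-(1 - ρ) n)`.

(1) For `0 < ρ ≤ (g + m) / 2` the rate of the largest code with minimum distance `⌈δ n⌉` in `S`
converges to `min ρ g` in probability.

(2) For `0 < ρ ≤ 1` it is at most `max g (ρ - (m - g) / 2) + ε` with probability tending to `1`.

(3) If it converges to `min ρ g` for one `ρ` then `R(δ) ≤ g + (1 - ρ)`; it converges to `min ρ g` for
all `ρ < 1` if and only if `R(δ) = g`. -/
theorem result {δ : ℝ} (h0 : 0 < δ) (h1 : δ < 1 / 2) :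
    gv δ < mrrw δ ∧
    (∀ ρ : ℝ, 0 < ρ → ρ ≤ (gv δ + mrrw δ) / 2 → Tight δ ρ) ∧
    (∀ ρ : ℝ, 0 < ρ → ρ ≤ 1 → ∀ ε > 0, Tendsto (fun n : ℕ => P n ρ (fun S =>
      rate δ S ≤ max (gv δ) (ρ - (mrrw δ - gv δ) / 2) + ε)) atTop (𝓝 1)) ∧
    (∀ ρ : ℝ, 0 < ρ → ρ ≤ 1 → Tight δ ρ → R δ ≤ gv δ + (1 - ρ)) ∧
    ((∀ ρ : ℝ, 0 < ρ → ρ < 1 → Tight δ ρ) ↔ R δ = gv δ) := by
  have hgm := gv_lt_mrrw h0 h1
  refine ⟨hgm, ?_, fun ρ _ hρ ε hε => upper h0 h1 hρ hε, fun ρ hρ0 hρ h => thin h0 h1 hρ0 hρ h, ?_, ?_⟩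
  · intro ρ hρ0 hρ
    have hρ1 : ρ ≤ 1 := by
      have := gv_le_one h0 h1
      have := mrrw_le_one δ
      linarith
    rw [tight_iff h0 h1 hρ0 hρ1]
    intro ε hε
    have h2 := upper h0 h1 hρ1 hε
    rwa [max_eq_left (by linarith)] at h2
  · intro h
    refine le_antisymm ?_ (gv_le_R h0 h1)
    refine le_of_forall_pos_le_add fun ε hε => ?_
    rcases le_total ε (1 / 2) with h2 | h2
    · have := thin h0 h1 (ρ := 1 - ε) (by linarith) (by linarith) (h _ (by linarith) (by linarith))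
      linarith
    · have := thin h0 h1 (ρ := 1 / 2) (by linarith) (by linarith) (h _ (by linarith) (by linarith))
      linarith
  · intro h ρ hρ0 hρ
    rw [tight_iff h0 h1 hρ0 hρ.le]
    intro ε hε
    have h2 : ∀ᶠ n : ℕ in atTop, rate δ (univ : Finset (Fin n → Bool)) < gv δ + ε := by
      apply eventually_lt_of_limsup_lt _ (bdd δ)
      change R δ < _
      linarith
    refine tendsto_one hρ.le (E := fun n S => rate δ S ≤ gv δ + ε) tendsto_const_nhds ?_
    filter_upwards [h2] with n hn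
    have h4 : P n ρ (fun S => ¬ rate δ S ≤ gv δ + ε) ≤ P n ρ (fun _ => False) :=
      P_mono hρ.le fun S hS => by
        have := rate_mono δ (Finset.subset_univ S)
        apply hS
        linarith
    refine h4.trans (le_of_eq ?_)
    unfold P
    simp

end Pool.Agent.Results.MP_0430e4_lc.CodesInRandomSets
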