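import Pool.Agent.Helper243_Two.Perm
import Pool.Agent.Helper479_qa.Lower
import Pool.Agent.Helper479_gq.GenPerm
import Pool.Agent.Helper479_gq.Sharp

/-!
# MP_0430e4_lc: the symmetry of good binary linear codes

Which groups of automorphisms (permutations of the coordinates) can a binary linear code of length
`n`, rate at least `ρ > 0` and relative distance at least `δ > 0` have? With `ρ` and `δ` fixed:

1. let `G` be a group, and `P` a normal 2-subgroup of `G` which acts freely, such that `G / P` is abelian
   of exponent dividing `m`; suppose that 4 does not divide `m` or that no involution of `G` fixes a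
   coordinate: then `G` has at least a constant times `log (n / |P|)` orbits (for `P = 1`: abelian groups
   of exponent dividing `m` with an arbitrary action if 4 does not divide `m`, and with a free action
   for every `m`);
2. this is the right order: for groups of odd order the Gilbert-Varshamov bound is attained if the
   number of orbits divided by `log n` tends to infinity (even if the action is free), and for
   every abelian group of bounded exponent there are good codes, with a free action, as soon as the
   number of orbits is at least a constant times `log n`;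
3. let `G` act freely with a bounded number of orbits, and let `P` be a normal 2-subgroup of `G`
   with abelian quotient `G / P` of bounded exponent: then `G / P` is bounded, and so is the number
   of generators of `P`;
4. for one orbit (group codes, the left ideals of `F_2[G]`) the same holds if the primes dividing the
   order of `G / P` are bounded, instead of the exponent.

For `P = 1` part 4 says that abelian codes of smooth length are asymptotically bad (for cyclic groups of
odd order this is a theorem of Berman). For `P = G` parts 3 and 4 say that asymptotically good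
(quasi-)group codes over 2-groups need 2-groups with a bounded number of generators. That an abelian
group of bounded exponent has an unbounded number of orbits, whatever the action, is
`MP_52e41e_co.AbelianBoundedExponent`; the analogue of part 1 for larger fields is in
`MP_52e41e_co.QuasiAbelianIndex`.

Parts 1 and 2 are due to helper479 (`Pool.Agent.Helper479_qa`, `Pool.Agent.Helper479_mod`,
`Pool.Agent.Helper479_gq`), parts 3 and 4 to helper243 (`Pool.Agent.Helper243_Two`,
`Pool.Agent.Helper243_Abel`).

Method. *Abelian groups of odd order.* After extension of scalars the code contains eigenvectors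
for a large set `S` of characters. By the pigeonhole principle many of them agree on representatives
of the orbits. If `S` contains a cube `χ ψ₁ ^ ε₁ ⋯ ψ_d ^ ε_d`, `ε ∈ {0, 1} ^ d`, with independent
characters `ψᵢ` of order `p`, then `χ (1 + ψ₁) ⋯ (1 + ψ_d)` vanishes with probability
`1 - (1 - 1 / p) ^ d`. If `S` contains a character `χ` of large order `n`, then `S` contains all
`χ ^ (1 + g j)`, where `g = gcd(n, 2 ^ (y!) - 1)`, as it is closed under squaring; their sum is
supported on the kernel of `χ ^ g`.
*2-groups.* A 2-group `K` fixes a subspace of dimension at least `dim C / |K|`, so codes over `G` give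
codes over `G / K` with at least the same rate and relative distance, for normal 2-subgroups `K`.
`P` maps onto `F_2 ^ d` (Burnside), and every choice of `n` of the `d` coordinates gives a
homomorphism `π` to `F_2 ^ n`. The words of `C` of the form `F ∘ π` (on each orbit) form a space of
dimension at least `ρ ℓ 2 ^ n`, so there is such an `F` of high degree `r`. We colour the choices of
coordinates with `F`, and find two disjoint choices all of whose `2 ^ n` mixtures have the same `F`.
If `S` is the set of variables of a monomial of `F` of maximal degree, the sum over the mixtures of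
the variables in `S` is `c ∏ (x_i + x_i')`, `i ∈ S`, a word of weight at most `2 ^ (-r)` times the
length. For the quantitative form (part 1) the `n` coordinates are replaced by `n`
independent linear forms; by the pigeonhole principle one `F` belongs to a dense set of `n`-tuples
of forms, and a dense set contains a box with independent differences (Cauchy-Schwarz inequality).
*The codes of part 2.* Let `L` be a large field of characteristic 2. Every finite abelian 2-group of
exponent dividing `2 ^ s` is a quotient of the group of units `1 + X (⋯)` of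
`L[X] / (X ^ (2 ^ s + 1))`, and polynomials of bounded weighted degree in the coefficients of the
unit form a code over `L` invariant under this group; for a group of odd order take a random
code of index two over `L`. The product of the two codes is concatenated with a good binary code;
the words constant on the cosets of a 2-subgroup form a good code over the quotient group.
*Cyclic 2-groups.* A code over `Z / 2 ^ m × Q` contains, for some idempotent `ε ≠ 0` of `F_2[Q]`, the word
`ε` times the indicator function of the multiples of `2 ^ t`, where `2 ^ t` is about `ρ 2 ^ m`.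
-/

set_option autoImplicit false

open Module

namespace Pool.Agent.Results.MP_0430e4_lc.GoodCodeSymmetry

/-- A binary linear code with coordinate set `Ω`. -/
abbrev Code (Ω : Type) : Type := Submodule (ZMod 2) (Ω → ZMod 2)

/-- `C` has rate at least `ρ` and relative minimum distance at least `δ`. -/
structure IsGood {Ω : Type} [Fintype Ω] (C : Code Ω) (ρ δ : ℝ) : Prop where
  rate : ρ * (Fintype.card Ω : ℝ) ≤ finrank (ZMod 2) C
  distance : ∀ c ∈ C, c ≠ 0 → δ * (Fintype.card Ω : ℝ) ≤ hammingNorm c

/-- The permutation `g` of the coordinates is an automorphism of the code `C`. -/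
def IsAutomorphism {Ω : Type} (C : Code Ω) (g : Equiv.Perm Ω) : Prop :=
  ∀ c ∈ C, (fun x : Ω => c (g x)) ∈ C

/-- `G` is a group of automorphisms of the code `C`. -/
def IsSymmetric {Ω : Type} (C : Code Ω) (G : Subgroup (Equiv.Perm Ω)) : Prop :=
  ∀ g ∈ G, IsAutomorphism C g

/-- The number of orbits of `G` on the coordinates. -/
noncomputable def orbitCount {Ω : Type} (G : Subgroup (Equiv.Perm Ω)) : ℕ :=
  Nat.card (MulAction.orbitRel.Quotient G Ω)

/-- No element of `G` except the identity fixes a coordinate. -/
def ActsFreely {Ω : Type} (G : Subgroup (Equiv.Perm Ω)) : Prop :=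
  ∀ g ∈ G, ∀ x : Ω, g x = x → g = 1

/-- `P` is a normal 2-subgroup of `G` and `G / P` is abelian. -/
structure TwoByAbelian {G : Type} [Group G] (P : Subgroup G) : Prop where
  normal : P.Normal
  twoGroup : IsPGroup 2 P
  abelian : ∀ g h : G, g * h * g⁻¹ * h⁻¹ ∈ P

/-- The translation of `l` copies of the group `A` by an element of `A`. -/
def translation (l : ℕ) {A : Type} [AddCommGroup A] (a : A) : Equiv.Perm (Fin l × A) :=
  Equiv.prodCongr (Equiv.refl (Fin l)) (Equiv.addRight a)

/-- The binary entropy function. -/
noncomputable def H2 (x : ℝ) : ℝ := -x * Real.logb 2 x - (1 - x) * Real.logb 2 (1 - x)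

theorem result :
    (∀ m : ℕ, 0 < m → ∀ ρ δ : ℝ, 0 < ρ → 0 < δ → ∃ κ : ℝ, 0 < κ ∧
      ∀ (Ω : Type) [Fintype Ω] (C : Code Ω) (G : Subgroup (Equiv.Perm Ω)) (P : Subgroup G),
        IsGood C ρ δ → IsSymmetric C G → TwoByAbelian P → (∀ g : G, g ^ m ∈ P) →
        (∀ g ∈ P, ∀ x : Ω, (g : Equiv.Perm Ω) x = x → g = 1) →
        (¬ 4 ∣ m ∨ ∀ g ∈ G, g ^ 2 = 1 → ∀ x : Ω, g x = x → g = 1) →
        κ * Real.logb 2 (Fintype.card Ω / Nat.card P) ≤ orbitCount G) ∧
    (∀ δ : ℝ, 0 < δ → δ < 1 / 2 → ∀ (A : Type) [AddCommGroup A] [Fintype A],
      Odd (Fintype.card A) → ∀ l : ℕ, 0 < l →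
      ∃ C : Code (Fin l × A), (∀ a : A, IsAutomorphism C (translation l a)) ∧
        IsGood C (1 - H2 δ - (Real.logb 2 (Fintype.card A) + 2) / l) δ) ∧
    (∀ m : ℕ, 0 < m → ∃ ρ K : ℝ, 0 < ρ ∧ 0 < K ∧ ∀ (A : Type) [AddCommGroup A] [Fintype A],
      (∀ a : A, m • a = 0) → 1 < Fintype.card A →
      ∀ l : ℕ, K * Real.logb 2 (Fintype.card A) ≤ l →
      ∃ C : Code (Fin l × A), (∀ a : A, IsAutomorphism C (translation l a)) ∧
        IsGood C ρ (1 / 128)) ∧
    (∀ e ℓ : ℕ, 0 < e → ∀ ρ δ : ℝ, 0 < ρ → 0 < δ → ∃ n₀ : ℕ,
      ∀ (Ω : Type) [Fintype Ω] [Nonempty Ω] (C : Code Ω) (G : Subgroup (Equiv.Perm Ω))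
        (P : Subgroup G), IsGood C ρ δ → IsSymmetric C G → ActsFreely G → orbitCount G ≤ ℓ →
        TwoByAbelian P → (∀ g : G, g ^ e ∈ P) →
        P.index < n₀ ∧ Group.rank P < n₀) ∧
    (∀ y : ℕ, ∀ ρ δ : ℝ, 0 < ρ → 0 < δ → ∃ n₀ : ℕ,
      ∀ (Ω : Type) [Fintype Ω] [Nonempty Ω] (C : Code Ω) (G : Subgroup (Equiv.Perm Ω))
        (P : Subgroup G), IsGood C ρ δ → IsSymmetric C G → ActsFreely G → orbitCount G = 1 →
        TwoByAbelian P → (∀ p : ℕ, p.Prime → p ∣ P.index → p ≤ y) →
        P.index < n₀ ∧ Group.rank P < n₀) := by
  classical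
  refine ⟨?_, ?_, ?_, ?_, ?_⟩
  · intro m hm ρ δ hρ hδ
    have h2 : ringChar (ZMod 2) = 2 := ZMod.ringChar_zmod_n 2
    by_cases h4 : 4 ∣ m
    · obtain ⟨κ, hκ, h⟩ := Pool.Agent.Helper479_gq.by_orbits' (ZMod 2) m hm hρ hδ
      refine ⟨κ, hκ, ?_⟩
      intro Ω _ C G P hgood hsym hP hexp _ hor
      rw [h2] at h
      exact h Ω C G P hsym (hor.resolve_left (not_not.2 h4)) hP.normal hP.twoGroup hP.abelian hexp
        hgood.rate hgood.distance
    · have hpm : ¬ ringChar (ZMod 2) ^ 2 ∣ m := by
        rw [h2]
        exact h4
      obtain ⟨κ, hκ, h⟩ := Pool.Agent.Helper479_gq.gen_by' (ZMod 2) m hm hpm hρ hδ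
      refine ⟨κ, hκ, ?_⟩
      intro Ω _ C G P hgood hsym hP hexp hfree _
      rw [h2] at h
      exact h Ω C G P hsym hP.normal hP.twoGroup hfree hP.abelian hexp hgood.rate hgood.distance
  · intro δ h0 h1 A _ _ hA l hl
    obtain ⟨C, hC, hr, hd⟩ := Pool.Agent.Helper479_qa.lower (m := Fintype.card A) (G := A) hA
      (fun g => card_nsmul_eq_zero) δ h0 h1 l hl
    have hcard : (Fintype.card (Fin l × A) : ℝ) = l * (Fintype.card A : ℝ) := by
      rw [Fintype.card_prod, Fintype.card_fin]; push_cast; rfl
    refine ⟨C, ?_, ?_, ?_⟩
    · intro a c hc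
      exact hC c hc a
    · rw [hcard]
      exact hr
    · intro c hc hne
      rw [hcard]
      exact (hd c hc hne).le
  · intro m hm
    obtain ⟨ρ, K, hρ, hK, h⟩ := Pool.Agent.Helper479_gq.index_upper (ZMod 2) m hm
    refine ⟨ρ, K, hρ, hK, ?_⟩
    intro A _ _ hA hA1 l hl
    obtain ⟨C, hC, hr, hd⟩ := h A l hA hA1 hl
    have hcard : (Fintype.card (Fin l × A) : ℝ) = l * (Fintype.card A : ℝ) := by
      rw [Fintype.card_prod, Fintype.card_fin]; push_cast; rfl
    refine ⟨C, fun a c hc => hC c hc a, ⟨?_, ?_⟩⟩
    · rw [hcard]
      exact hr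
    · intro c hc hne
      rw [hcard]
      exact hd c hc hne
  · intro e ℓ he ρ δ hρ hδ
    obtain ⟨n₀, h⟩ := Pool.Agent.Helper243Two.perm_few e ℓ he ρ δ hρ hδ
    refine ⟨n₀, ?_⟩
    intro Ω _ _ C G P hgood hsym hfree hl hP hexp
    exact h Ω C G P hsym hgood.rate hgood.distance hP.normal hP.twoGroup hP.abelian hexp hfree hl
  · intro y ρ δ hρ hδ
    obtain ⟨n₀, h⟩ := Pool.Agent.Helper243Two.perm_one y ρ δ hρ hδ
    refine ⟨n₀, ?_⟩
    intro Ω _ _ C G P hgood hsym hfree hone hP hy
    exact h Ω C G P hsym hgood.rate hgood.distance hP.normal hP.twoGroup hP.abelian hy hfree hone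

end Pool.Agent.Results.MP_0430e4_lc.GoodCodeSymmetry
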