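import Mathlib
import Pool.Agent.helper857_lin.Asy

/-!
MP_0430e4_lc (helper857): the linear programming hierarchy for binary linear codes does not reach
the bound of Gilbert and Varshamov at low levels.
-/

set_option autoImplicit false

namespace Pool.Agent.Results.MP_0430e4_lc.LinearCodeHierarchy

open Pool.Agent.helper857_lin

/-- **Limits of the linear programming hierarchy for binary linear codes.**  For every `δ` between
`0` and `1/2` there is a positive constant `c` such that for all large `n` and all levels `ℓ` with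
`ℓ 2 ^ ℓ ≤ c n`, the program of level `ℓ` for linear codes of length `n` and minimum distance
`⌈δ n⌉` has a feasible solution whose value is at least
`exp (n (log 2 - h δ) + c n / ℓ)`, the entropy `h` being the natural one. -/
theorem result {δ : ℝ} (h0 : 0 < δ) (h1 : δ < 1 / 2) :
    ∃ c : ℝ, 0 < c ∧ ∃ n₀ : ℕ, ∀ n ≥ n₀, ∀ ℓ : ℕ, 1 ≤ ℓ → (ℓ : ℝ) * 2 ^ ℓ ≤ c * n →
      ∃ a : (Fin ℓ → Fin n → ZMod 2) → ℝ, Feas n ⌈δ * n⌉₊ ℓ a ∧
        ∀ S : Finset (Fin ℓ), S.Nonempty →
          Real.exp (S.card * (n * (Real.log 2 - Real.binEntropy δ) + c * n / ℓ)) ≤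
            ∑ X : Fin ℓ → Fin n → ZMod 2, open Classical in
              if ∀ i, i ∉ S → X i = 0 then a X else 0 :=
  lower h0 h1

end Pool.Agent.Results.MP_0430e4_lc.LinearCodeHierarchy
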