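import Pool.Agent.Helper951_poly.Rate

/-!
MP_0430e4_lc (helper951): binary codes closed under coordinatewise operations.

A coordinatewise operation acts on `k` words of length `n` by a Boolean operation `f i` in the
coordinate `i`.  Let a code of length `n` and minimum distance at least `d` be closed under some
coordinatewise operations, and let `N` be the number of the coordinates in which at least one of
them is not affine over the field with two elements.  Then the code has at most
`2 ^ ⌊N / d⌋ * A (n - N, d)` words, and for all `n`, `d`, `N` this is attained.  In particular all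
the operations of a nearly optimal code are affine off one small set of coordinates.  For
operations which are the same in all coordinates: one operation which is not affine leaves exactly
`2 ^ ⌊n / d⌋` words, and all affine ones together leave the rate of Gilbert and Varshamov.
-/

set_option autoImplicit false

namespace Pool.Agent.Results.MP_0430e4_lc.Polymorphisms

/-- Any two distinct words of `C` differ in at least `d` coordinates. -/
def MinDist {n : ℕ} (d : ℕ) (C : Finset (Fin n → Bool)) : Prop :=
  ∀ x ∈ C, ∀ y ∈ C, x ≠ y → d ≤ (Finset.univ.filter (fun i => x i ≠ y i)).card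

/-- The largest size of a binary code of length `n` with minimum distance at least `d`. -/
noncomputable def A (n d : ℕ) : ℕ :=
  sSup {m | ∃ C : Finset (Fin n → Bool), MinDist d C ∧ C.card = m}

/-- The asymptotic rate `R(δ)` of the problem. -/
noncomputable def R (δ : ℝ) : ℝ :=
  Filter.limsup (fun n : ℕ => Real.logb 2 (A n ⌈δ * n⌉₊) / n) Filter.atTop

/-- A coordinatewise operation on words of length `n`, with `k` arguments: in the coordinate `i` it
acts by the Boolean operation `f i`. -/
abbrev Operation (n k : ℕ) := Fin n → (Fin k → Bool) → Bool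

/-- The code `C` is closed under the coordinatewise operation `f`. -/
def Closed {n k : ℕ} (f : Operation n k) (C : Finset (Fin n → Bool)) : Prop :=
  ∀ x : Fin k → Fin n → Bool, (∀ j, x j ∈ C) → (fun i => f i (fun j => x j i)) ∈ C

/-- The Boolean operation `f` is affine: `f (x + y + z) = f x + f y + f z` modulo `2`. -/
def Affine {k : ℕ} (f : (Fin k → Bool) → Bool) : Prop :=
  ∀ x y z : Fin k → Bool,
    f (fun j => xor (x j) (xor (y j) (z j))) = xor (f x) (xor (f y) (f z))

/-- The binary entropy function. -/
noncomputable def H₂ (x : ℝ) : ℝ := -x * Real.logb 2 x - (1 - x) * Real.logb 2 (1 - x)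

theorem result :
    -- the exact maximum
    (∀ n d N : ℕ, 1 ≤ d → N ≤ n →
      IsGreatest {m | ∃ (O : Set (Σ k, Operation n k)) (C : Finset (Fin n → Bool)),
        Nat.card {i // ∃ f ∈ O, ¬ Affine (f.2 i)} = N ∧ (∀ f ∈ O, Closed f.2 C) ∧
        MinDist d C ∧ C.card = m}
        (2 ^ (N / d) * A (n - N) d)) ∧
    -- nearly optimal codes
    (∀ δ : ℝ, 0 < δ → δ < 1 / 2 → ∀ η : ℝ, 0 < η → ∃ ε : ℝ, 0 < ε ∧ ∃ n₀ : ℕ, ∀ n ≥ n₀,
      ∀ C : Finset (Fin n → Bool), MinDist ⌈δ * n⌉₊ C →
      (2 : ℝ) ^ ((R δ - ε) * n) ≤ C.card →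
      (Nat.card {i // ∃ (k : ℕ) (f : Operation n k), Closed f C ∧ ¬ Affine (f i)} : ℝ) ≤ η * n) ∧
    -- the same operation in all coordinates: codes closed under everything ...
    (∀ n d : ℕ, 1 ≤ d → d ≤ n → ∃ C : Finset (Fin n → Bool), MinDist d C ∧
      (∀ (k : ℕ) (g : (Fin k → Bool) → Bool), Closed (fun _ => g) C) ∧ C.card = 2 ^ (n / d)) ∧
    -- ... and codes closed under all affine operations
    (∀ δ : ℝ, 0 < δ → δ < 1 / 2 → ∀ n : ℕ, 1 ≤ n → ∃ C : Finset (Fin n → Bool),
      MinDist ⌈δ * n⌉₊ C ∧
      (∀ (k : ℕ) (g : (Fin k → Bool) → Bool), Affine g → Closed (fun _ => g) C) ∧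
      (2 : ℝ) ^ ((1 - H₂ δ) * n) ≤ C.card) := by
  refine ⟨fun n d N hd hN => Pool.Agent.Helper951_poly.greatest n d N hd hN,
    fun _ h0 h1 _ hη => Pool.Agent.Helper951_poly.near_optimal h0 h1 hη, ?_, ?_⟩
  · intro n d hd hdn
    obtain ⟨C, h1, h2, h3⟩ := Pool.Agent.Helper951_poly.blowup hd hdn
    exact ⟨C, h2, fun k g => h3 k g, h1⟩
  · intro δ h0 h1 n hn
    obtain ⟨C, h2, h3, h4⟩ := Pool.Agent.Helper951_poly.gv_rate h0 h1 hn
    exact ⟨C, h2, fun k g hg => h3 k g hg, h4⟩

end Pool.Agent.Results.MP_0430e4_lc.Polymorphisms
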